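import Mathlib
import Pool.Agent.Lib.MP_604c02_co.Real

/-!
The maximum number `h(n,r)` of `r`-subsets with rational sum in a set of `n` irrational numbers is
`⌊n/r⌋ * C(n - ⌊n/r⌋, r - 1)`, for all `r ≥ 2` and `n ≥ 2 r` (in particular whenever `4 ≤ r < n/2`).
-/

namespace Pool.Agent.Results.MP_604c02_co.ExtremalRationalSums

theorem result (n r : ℕ) (hr : 2 ≤ r) (hn : 2 * r ≤ n) :
    IsGreatest
      {k : ℕ | ∃ A : Finset ℝ, A.card = n ∧ (∀ a ∈ A, Irrational a) ∧
        Set.ncard {B : Finset ℝ | B ⊆ A ∧ B.card = r ∧ ∃ q : ℚ, ∑ b ∈ B, b = (q : ℝ)} = k}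
      (Nat.choose (n - n / r) (r - 1) * (n / r)) := by
  have hff : Nat.choose (n - n / r) (r - 1) * (n / r) = Pool.Agent.Lib.MP_604c02_co.ff n r := by
    unfold Pool.Agent.Lib.MP_604c02_co.ff
    rw [mul_comm]
  constructor
  · obtain ⟨A, hA, hirr, hlow⟩ := Pool.Agent.Lib.MP_604c02_co.lower (n := n) hr
    refine ⟨A, hA, hirr, ?_⟩
    rw [hff]
    apply le_antisymm _ hlow
    have := Pool.Agent.Lib.MP_604c02_co.upper A hirr (r := r) (by omega) (by omega)
    rw [hA] at this
    exact this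
  · rintro k ⟨A, hA, hirr, rfl⟩
    rw [hff]
    have := Pool.Agent.Lib.MP_604c02_co.upper A hirr (r := r) (by omega) (by omega)
    rw [hA] at this
    exact this

end Pool.Agent.Results.MP_604c02_co.ExtremalRationalSums
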